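import Mathlib

set_option autoImplicit false

namespace Pool.Agent.Results.MP_8f735f_al.FiniteBasis

/-! ## Statement -/

/-- Terms of the loop signature (product, left division, right division, identity element)
in the variables `x 0, x 1, x 2, …`. -/
inductive LTerm : Type
  | var : ℕ → LTerm
  | one : LTerm
  | mul : LTerm → LTerm → LTerm
  | ldiv : LTerm → LTerm → LTerm
  | rdiv : LTerm → LTerm → LTerm

/-- An algebra of the loop signature with carrier `M`. No axiom is imposed. -/
structure LAlg (M : Type) where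
  mul : M → M → M
  ldiv : M → M → M
  rdiv : M → M → M
  one : M

/-- The value of a term under an assignment of elements to the variables. -/
def LAlg.eval {M : Type} (Q : LAlg M) (v : ℕ → M) : LTerm → M
  | .var i => v i
  | .one => Q.one
  | .mul s t => Q.mul (Q.eval v s) (Q.eval v t)
  | .ldiv s t => Q.ldiv (Q.eval v s) (Q.eval v t)
  | .rdiv s t => Q.rdiv (Q.eval v s) (Q.eval v t)

/-- `s = t` is a law of `Q`: it holds under every assignment. -/
def LAlg.Law {M : Type} (Q : LAlg M) (s t : LTerm) : Prop :=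
  ∀ v : ℕ → M, Q.eval v s = Q.eval v t

/-- `Q` is a loop, with `ldiv a b` the solution `x` of `a x = b` and `rdiv b a` the solution
`y` of `y a = b`. -/
def LAlg.IsLoop {M : Type} (Q : LAlg M) : Prop :=
  (∀ a, Q.mul Q.one a = a ∧ Q.mul a Q.one = a) ∧
  (∀ a b, Q.mul a (Q.ldiv a b) = b ∧ Q.ldiv a (Q.mul a b) = b) ∧
  (∀ a b, Q.mul (Q.rdiv b a) a = b ∧ Q.rdiv (Q.mul b a) a = b)

/-- Simultaneous substitution of terms for variables. -/
def LTerm.subst (σ : ℕ → LTerm) : LTerm → LTerm
  | .var i => σ i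
  | .one => .one
  | .mul s t => .mul (s.subst σ) (t.subst σ)
  | .ldiv s t => .ldiv (s.subst σ) (t.subst σ)
  | .rdiv s t => .rdiv (s.subst σ) (t.subst σ)

/-- Derivability of the equation `s = t` from the equations in `B` by the rules of equational
logic. -/
inductive Derives (B : Set (LTerm × LTerm)) : LTerm → LTerm → Prop
  | ax (s t : LTerm) (h : (s, t) ∈ B) (σ : ℕ → LTerm) : Derives B (s.subst σ) (t.subst σ)
  | refl (s : LTerm) : Derives B s s
  | symm (s t : LTerm) : Derives B s t → Derives B t s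
  | trans (s t u : LTerm) : Derives B s t → Derives B t u → Derives B s u
  | mul (s s' t t' : LTerm) : Derives B s s' → Derives B t t' →
      Derives B (.mul s t) (.mul s' t')
  | ldiv (s s' t t' : LTerm) : Derives B s s' → Derives B t t' →
      Derives B (.ldiv s t) (.ldiv s' t')
  | rdiv (s s' t t' : LTerm) : Derives B s s' → Derives B t t' →
      Derives B (.rdiv s t) (.rdiv s' t')

/-- The laws of `Q` have a finite basis: finitely many laws of `Q` imply, by equational logic,
every law of `Q`. -/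
def LAlg.FinitelyBased {M : Type} (Q : LAlg M) : Prop :=
  ∃ B : Set (LTerm × LTerm), B.Finite ∧ (∀ e ∈ B, Q.Law e.1 e.2) ∧
    ∀ s t : LTerm, Q.Law s t → Derives B s t

/-- The multiplication table of the problem; the element called `i` there is `i - 1` here. -/
def table : Fin 10 → Fin 10 → Fin 10 :=
  ![![0, 1, 2, 3, 4, 5, 6, 7, 8, 9],
    ![1, 0, 3, 2, 7, 8, 9, 4, 5, 6],
    ![2, 3, 0, 1, 8, 9, 7, 6, 4, 5],
    ![3, 2, 1, 0, 9, 7, 8, 5, 6, 4],
    ![4, 7, 8, 9, 0, 6, 5, 1, 2, 3],
    ![5, 8, 9, 7, 6, 0, 4, 3, 1, 2],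
    ![6, 9, 7, 8, 5, 4, 0, 2, 3, 1],
    ![7, 4, 6, 5, 1, 3, 2, 0, 9, 8],
    ![8, 5, 4, 6, 2, 1, 3, 9, 0, 7],
    ![9, 6, 5, 4, 3, 2, 1, 8, 7, 0]]

/-- The ten-element loop `L` of the problem. Since `x (x y) = y` and `x y = y x` hold in it, both
divisions are given by the same table (this is part of what is proved below). -/
def tenLoop : LAlg (Fin 10) where
  mul := table
  ldiv := table
  rdiv := table
  one := 0

theorem tenLoop_isLoop : tenLoop.IsLoop := by
  refine ⟨?_, ?_, ?_⟩ <;> simp only [tenLoop] <;> decide +kernel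


/-! ## Terms used in the proof -/

section generic

variable {M : Type} [Mul M] [One M]

/-- The associator-like term: in `L` it is `y` if `x, y, z` generate `L`, and `1` otherwise. -/
def A (x y z : M) : M := ((x * y) * z) * (x * (y * z))

def P (b x y z : M) : M := (x * (b * y)) * (x * (b * z))

def R (b x y z : M) : M := (x * (b * y)) * (y * (b * z))

/-- In `L` this is `b` if `x, y, z` generate `L`, and `1` otherwise. -/
def F (b x y z : M) : M :=
  A (P b (A y x z) (A x y z) (A x z y)) b (R b (A y x z) (A x y z) (A x z y))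

/-- In `L` this is `v` if `b ≠ 1` and `x, y, z` generate `L`, and `1` otherwise. -/
def E (b x y z v : M) : M :=
  F v (P b (A y x z) (A x y z) (A x z y)) b (R b (A y x z) (A x y z) (A x z y))

/-- Iterated application of `E` over a list. -/
def comp (x y z : M) : List M → M → M
  | [], v => v
  | b :: l, v => E b x y z (comp x y z l v)

/-- The ten elements generated by a generating triple of `L`. -/
def es (x y z : M) : List M :=
  [1, x, y, z, x * y, x * z, y * z, (x * y) * z, x * (y * z), (x * z) * y]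

/-- Evaluation of loop terms when all three operations are the product. -/
def ev (v : ℕ → M) : LTerm → M
  | .var i => v i
  | .one => 1
  | .mul s t => ev v s * ev v t
  | .ldiv s t => ev v s * ev v t
  | .rdiv s t => ev v s * ev v t

end generic

instance : Mul LTerm := ⟨LTerm.mul⟩
instance : One LTerm := ⟨LTerm.one⟩

/-- All variables of the term have index less than five. -/
def Bd : LTerm → Prop
  | .var i => i < 5
  | .one => True
  | .mul s t => Bd s ∧ Bd t
  | .ldiv s t => Bd s ∧ Bd t
  | .rdiv s t => Bd s ∧ Bd t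

theorem Bd_mul {s t : LTerm} (hs : Bd s) (ht : Bd t) : Bd (s * t) := ⟨hs, ht⟩
theorem Bd_one : Bd (1 : LTerm) := trivial
theorem Bd_A {s t u : LTerm} (hs : Bd s) (ht : Bd t) (hu : Bd u) : Bd (A s t u) :=
  Bd_mul (Bd_mul (Bd_mul hs ht) hu) (Bd_mul hs (Bd_mul ht hu))
theorem Bd_P {b s t u : LTerm} (hb : Bd b) (hs : Bd s) (ht : Bd t) (hu : Bd u) :
    Bd (P b s t u) :=
  Bd_mul (Bd_mul hs (Bd_mul hb ht)) (Bd_mul hs (Bd_mul hb hu))
theorem Bd_R {b s t u : LTerm} (hb : Bd b) (hs : Bd s) (ht : Bd t) (hu : Bd u) :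
    Bd (R b s t u) :=
  Bd_mul (Bd_mul hs (Bd_mul hb ht)) (Bd_mul ht (Bd_mul hb hu))
theorem Bd_F {b s t u : LTerm} (hb : Bd b) (hs : Bd s) (ht : Bd t) (hu : Bd u) :
    Bd (F b s t u) :=
  Bd_A (Bd_P hb (Bd_A ht hs hu) (Bd_A hs ht hu) (Bd_A hs hu ht)) hb
    (Bd_R hb (Bd_A ht hs hu) (Bd_A hs ht hu) (Bd_A hs hu ht))
theorem Bd_E {b s t u w : LTerm} (hb : Bd b) (hs : Bd s) (ht : Bd t) (hu : Bd u) (hw : Bd w) :
    Bd (E b s t u w) :=
  Bd_F hw (Bd_P hb (Bd_A ht hs hu) (Bd_A hs ht hu) (Bd_A hs hu ht)) hb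
    (Bd_R hb (Bd_A ht hs hu) (Bd_A hs ht hu) (Bd_A hs hu ht))
theorem Bd_comp {s t u w : LTerm} (hs : Bd s) (ht : Bd t) (hu : Bd u) (hw : Bd w) :
    ∀ l : List LTerm, (∀ b ∈ l, Bd b) → Bd (comp s t u l w)
  | [], _ => hw
  | b :: l, h => Bd_E (h b (by simp)) hs ht hu
      (Bd_comp hs ht hu hw l (fun c hc => h c (by simp [hc])))
theorem Bd_var {i : ℕ} (h : i < 5) : Bd (.var i) := h

theorem Bd_es {m s t u : LTerm} (hm : Bd m) (hs : Bd s) (ht : Bd t) (hu : Bd u) :
    ∀ b ∈ (es s t u).map (fun e => m * e), Bd b := by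
  intro b hb
  simp only [es, List.map_cons, List.map_nil, List.mem_cons, List.not_mem_nil, or_false] at hb
  rcases hb with h | h | h | h | h | h | h | h | h | h <;> subst h
  · exact Bd_mul hm Bd_one
  · exact Bd_mul hm hs
  · exact Bd_mul hm ht
  · exact Bd_mul hm hu
  · exact Bd_mul hm (Bd_mul hs ht)
  · exact Bd_mul hm (Bd_mul hs hu)
  · exact Bd_mul hm (Bd_mul ht hu)
  · exact Bd_mul hm (Bd_mul (Bd_mul hs ht) hu)
  · exact Bd_mul hm (Bd_mul hs (Bd_mul ht hu))
  · exact Bd_mul hm (Bd_mul (Bd_mul hs hu) ht)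

section evlemmas

variable {M : Type} [Mul M] [One M] (v : ℕ → M)

theorem ev_mul (s t : LTerm) : ev v (s * t) = ev v s * ev v t := rfl
theorem ev_one : ev v 1 = 1 := rfl
theorem ev_var (i : ℕ) : ev v (.var i) = v i := rfl
theorem ev_A (s t u : LTerm) : ev v (A s t u) = A (ev v s) (ev v t) (ev v u) := rfl
theorem ev_P (b s t u : LTerm) :
    ev v (P b s t u) = P (ev v b) (ev v s) (ev v t) (ev v u) := rfl
theorem ev_R (b s t u : LTerm) :
    ev v (R b s t u) = R (ev v b) (ev v s) (ev v t) (ev v u) := rfl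
theorem ev_F (b s t u : LTerm) :
    ev v (F b s t u) = F (ev v b) (ev v s) (ev v t) (ev v u) := by
  unfold F
  rw [ev_A, ev_P, ev_R, ev_A, ev_A, ev_A]
theorem ev_E (b s t u w : LTerm) :
    ev v (E b s t u w) = E (ev v b) (ev v s) (ev v t) (ev v u) (ev v w) := by
  unfold E
  rw [ev_F, ev_P, ev_R, ev_A, ev_A, ev_A]
theorem ev_comp (s t u w : LTerm) : ∀ l : List LTerm,
    ev v (comp s t u l w) = comp (ev v s) (ev v t) (ev v u) (l.map (ev v)) (ev v w)
  | [] => rfl
  | b :: l => by
      rw [comp, ev_E, ev_comp s t u w l]; rfl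
theorem ev_es (m s t u : LTerm) :
    ((es s t u).map (fun e => m * e)).map (ev v) =
      (es (ev v s) (ev v t) (ev v u)).map (fun e => ev v m * e) := by
  simp [es, ev_mul, ev_one]

end evlemmas

/-! ## The loop `L` as a type with product and identity -/

/-- The carrier of `L`. -/
def Ten : Type := Fin 10

instance : Mul Ten := ⟨fun a b => table a b⟩
instance : One Ten := ⟨(0 : Fin 10)⟩
instance : DecidableEq Ten := inferInstanceAs (DecidableEq (Fin 10))
instance : Fintype Ten := inferInstanceAs (Fintype (Fin 10))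

/-- `x, y, z` generate `L` (they are three non-collinear points). -/
def Ind (x y z : Ten) : Prop := x ≠ 1 ∧ y ≠ 1 ∧ z ≠ 1 ∧ x ≠ y ∧ x ≠ z ∧ y ≠ z ∧ x * y ≠ z

instance (x y z : Ten) : Decidable (Ind x y z) := by unfold Ind; infer_instance

theorem ten_comm : ∀ x y : Ten, x * y = y * x := by decide +kernel
theorem ten_cancel : ∀ x y : Ten, x * (x * y) = y := by decide +kernel
theorem ten_one_mul : ∀ x : Ten, 1 * x = x := by decide +kernel
theorem ten_mul_one : ∀ x : Ten, x * 1 = x := by decide +kernel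
theorem ten_mul_self : ∀ x : Ten, x * x = 1 := by decide +kernel

theorem ten_A : ∀ x y z : Ten, A x y z = if Ind x y z then y else 1 := by decide +kernel

theorem ten_Ind_swap : ∀ x y z : Ten, (Ind y x z ↔ Ind x y z) ∧ (Ind x z y ↔ Ind x y z) := by
  decide +kernel

theorem ten_PR : ∀ x y z : Ten, Ind x y z → ∀ b : Ten, b ≠ 1 → Ind (P b x y z) b (R b x y z) := by
  decide +kernel

theorem ten_es : ∀ x y z : Ten, Ind x y z → ∀ m : Ten, ∃ e ∈ es x y z, m * e = 1 := by
  decide +kernel

theorem ten_F (b x y z : Ten) : F b x y z = if Ind x y z then b else 1 := by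
  unfold F
  by_cases h : Ind x y z
  · have h1 : A y x z = x := by rw [ten_A, if_pos ((ten_Ind_swap x y z).1.2 h)]
    have h2 : A x y z = y := by rw [ten_A, if_pos h]
    have h3 : A x z y = z := by rw [ten_A, if_pos ((ten_Ind_swap x y z).2.2 h)]
    rw [h1, h2, h3, if_pos h]
    by_cases hb : b = 1
    · subst hb
      rw [ten_A, if_neg]
      exact fun hh => hh.2.1 rfl
    · rw [ten_A, if_pos (ten_PR x y z h b hb)]
  · have h1 : A y x z = 1 := by rw [ten_A, if_neg (fun hh => h ((ten_Ind_swap x y z).1.1 hh))]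
    have h2 : A x y z = 1 := by rw [ten_A, if_neg h]
    have h3 : A x z y = 1 := by rw [ten_A, if_neg (fun hh => h ((ten_Ind_swap x y z).2.1 hh))]
    rw [h1, h2, h3, if_neg h]
    have hP : P b 1 1 1 = 1 := by
      unfold P
      rw [ten_mul_one, ten_one_mul, ten_mul_self]
    rw [hP, ten_A, if_neg]
    exact fun hh => hh.1 rfl

theorem ten_E (b x y z v : Ten) : E b x y z v = if b ≠ 1 ∧ Ind x y z then v else 1 := by
  unfold E
  rw [ten_F]
  by_cases h : Ind x y z
  · have h1 : A y x z = x := by rw [ten_A, if_pos ((ten_Ind_swap x y z).1.2 h)]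
    have h2 : A x y z = y := by rw [ten_A, if_pos h]
    have h3 : A x z y = z := by rw [ten_A, if_pos ((ten_Ind_swap x y z).2.2 h)]
    rw [h1, h2, h3]
    by_cases hb : b = 1
    · subst hb
      rw [if_neg, if_neg]
      · exact fun hh => hh.1 rfl
      · exact fun hh => hh.2.1 rfl
    · rw [if_pos (ten_PR x y z h b hb), if_pos ⟨hb, h⟩]
  · have h1 : A y x z = 1 := by rw [ten_A, if_neg (fun hh => h ((ten_Ind_swap x y z).1.1 hh))]
    have h2 : A x y z = 1 := by rw [ten_A, if_neg h]
    have h3 : A x z y = 1 := by rw [ten_A, if_neg (fun hh => h ((ten_Ind_swap x y z).2.1 hh))]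
    rw [h1, h2, h3]
    have hP : P b 1 1 1 = 1 := by
      unfold P
      rw [ten_mul_one, ten_one_mul, ten_mul_self]
    rw [hP, if_neg, if_neg]
    · exact fun hh => h hh.2
    · exact fun hh => hh.1 rfl

theorem ten_comp_one (x y z v : Ten) : ∀ l : List Ten, l ≠ [] → (Ind x y z → (1 : Ten) ∈ l) →
    comp x y z l v = 1
  | [], h, _ => absurd rfl h
  | b :: l, _, h => by
      rw [comp, ten_E]
      by_cases hb : b ≠ 1 ∧ Ind x y z
      · rw [if_pos hb]
        have h1 : (1 : Ten) ∈ l := by
          rcases List.mem_cons.1 (h hb.2) with h1 | h1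
          · exact absurd h1.symm hb.1
          · exact h1
        exact ten_comp_one x y z v l (List.ne_nil_of_mem h1) (fun _ => h1)
      · rw [if_neg hb]

/-! ## Five-variable laws of `L` transferred to another algebra -/

/-- `s = t` holds in `L` (all operations being the product). -/
def TenLaw (s t : LTerm) : Prop := ∀ v : ℕ → Ten, ev v s = ev v t

/-- `M` satisfies all laws of `L` in at most five variables. -/
def Sat5 (M : Type) [Mul M] [One M] : Prop :=
  ∀ s t : LTerm, Bd s → Bd t → TenLaw s t → ∀ v : ℕ → M, ev v s = ev v t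

/-- assignment of five values -/
def asg {M : Type} [One M] (a b c d e : M) : ℕ → M
  | 0 => a
  | 1 => b
  | 2 => c
  | 3 => d
  | 4 => e
  | _ => 1

section transfer

variable {M : Type} [Mul M] [One M]

theorem Sat5.comm (H : Sat5 M) (x y : M) : x * y = y * x :=
  H (LTerm.var 0 * LTerm.var 1) (LTerm.var 1 * LTerm.var 0)
    (Bd_mul (Bd_var (by norm_num)) (Bd_var (by norm_num)))
    (Bd_mul (Bd_var (by norm_num)) (Bd_var (by norm_num)))
    (fun v => ten_comm (v 0) (v 1)) (asg x y 1 1 1)

theorem Sat5.cancel (H : Sat5 M) (x y : M) : x * (x * y) = y :=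
  H (LTerm.var 0 * (LTerm.var 0 * LTerm.var 1)) (LTerm.var 1)
    (Bd_mul (Bd_var (by norm_num)) (Bd_mul (Bd_var (by norm_num)) (Bd_var (by norm_num))))
    (Bd_var (by norm_num))
    (fun v => ten_cancel (v 0) (v 1)) (asg x y 1 1 1)

theorem Sat5.one_mul (H : Sat5 M) (x : M) : 1 * x = x :=
  H ((1 : LTerm) * LTerm.var 0) (LTerm.var 0)
    (Bd_mul Bd_one (Bd_var (by norm_num))) (Bd_var (by norm_num))
    (fun v => ten_one_mul (v 0)) (asg x 1 1 1 1)

theorem Sat5.mul_one (H : Sat5 M) (x : M) : x * 1 = x := by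
  rw [H.comm, H.one_mul]

theorem Sat5.mul_self (H : Sat5 M) (x : M) : x * x = 1 := by
  have := H.cancel x 1
  rwa [H.mul_one] at this

/-- `F` is multiplicative in its first argument. -/
theorem Sat5.F_mul (H : Sat5 M) (p q x y z : M) : F (p * q) x y z = F p x y z * F q x y z := by
  have hv : ∀ i : ℕ, i < 5 → Bd (.var i) := fun i hi => hi
  have key := H (F (LTerm.var 0 * LTerm.var 1) (LTerm.var 2) (LTerm.var 3) (LTerm.var 4))
    (F (LTerm.var 0) (LTerm.var 2) (LTerm.var 3) (LTerm.var 4) *
      F (LTerm.var 1) (LTerm.var 2) (LTerm.var 3) (LTerm.var 4))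
    (Bd_F (Bd_mul (hv 0 (by norm_num)) (hv 1 (by norm_num))) (hv 2 (by norm_num))
      (hv 3 (by norm_num)) (hv 4 (by norm_num)))
    (Bd_mul (Bd_F (hv 0 (by norm_num)) (hv 2 (by norm_num)) (hv 3 (by norm_num))
      (hv 4 (by norm_num))) (Bd_F (hv 1 (by norm_num)) (hv 2 (by norm_num)) (hv 3 (by norm_num))
      (hv 4 (by norm_num))))
    (by
      intro v
      simp only [ev_mul, ev_F, ev_var, ten_F]
      by_cases h : Ind (v 2) (v 3) (v 4)
      · simp only [if_pos h]
      · simp only [if_neg h, ten_one_mul])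
    (asg p q x y z)
  simpa only [ev_mul, ev_F, ev_var, asg] using key

theorem Sat5.F_F (H : Sat5 M) (p x y z : M) : F (F p x y z) x y z = F p x y z := by
  have hv : ∀ i : ℕ, i < 5 → Bd (.var i) := fun i hi => hi
  have key := H (F (F (LTerm.var 0) (LTerm.var 2) (LTerm.var 3) (LTerm.var 4))
      (LTerm.var 2) (LTerm.var 3) (LTerm.var 4))
    (F (LTerm.var 0) (LTerm.var 2) (LTerm.var 3) (LTerm.var 4))
    (Bd_F (Bd_F (hv 0 (by norm_num)) (hv 2 (by norm_num)) (hv 3 (by norm_num))
      (hv 4 (by norm_num))) (hv 2 (by norm_num)) (hv 3 (by norm_num)) (hv 4 (by norm_num)))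
    (Bd_F (hv 0 (by norm_num)) (hv 2 (by norm_num)) (hv 3 (by norm_num)) (hv 4 (by norm_num)))
    (by
      intro v
      simp only [ev_F, ev_var, ten_F]
      by_cases h : Ind (v 2) (v 3) (v 4)
      · simp only [if_pos h]
      · simp only [if_neg h])
    (asg p 1 x y z)
  simpa only [ev_F, ev_var, asg] using key

/-- `p * F p` is multiplicative in `p`. -/
theorem Sat5.G_mul (H : Sat5 M) (p q x y z : M) :
    (p * q) * F (p * q) x y z = (p * F p x y z) * (q * F q x y z) := by
  have hv : ∀ i : ℕ, i < 5 → Bd (.var i) := fun i hi => hi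
  have hF : ∀ s : LTerm, Bd s → Bd (F s (LTerm.var 2) (LTerm.var 3) (LTerm.var 4)) :=
    fun s hs => Bd_F hs (hv 2 (by norm_num)) (hv 3 (by norm_num)) (hv 4 (by norm_num))
  have key := H ((LTerm.var 0 * LTerm.var 1) *
      F (LTerm.var 0 * LTerm.var 1) (LTerm.var 2) (LTerm.var 3) (LTerm.var 4))
    ((LTerm.var 0 * F (LTerm.var 0) (LTerm.var 2) (LTerm.var 3) (LTerm.var 4)) *
      (LTerm.var 1 * F (LTerm.var 1) (LTerm.var 2) (LTerm.var 3) (LTerm.var 4)))
    (Bd_mul (Bd_mul (hv 0 (by norm_num)) (hv 1 (by norm_num)))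
      (hF _ (Bd_mul (hv 0 (by norm_num)) (hv 1 (by norm_num)))))
    (Bd_mul (Bd_mul (hv 0 (by norm_num)) (hF _ (hv 0 (by norm_num))))
      (Bd_mul (hv 1 (by norm_num)) (hF _ (hv 1 (by norm_num)))))
    (by
      intro v
      simp only [ev_mul, ev_F, ev_var, ten_F]
      by_cases h : Ind (v 2) (v 3) (v 4)
      · simp only [if_pos h, ten_mul_self]
      · simp only [if_neg h, ten_mul_one])
    (asg p q x y z)
  simpa only [ev_mul, ev_F, ev_var, asg] using key

theorem Sat5.G_G (H : Sat5 M) (p x y z : M) :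
    (p * F p x y z) * F (p * F p x y z) x y z = p * F p x y z := by
  have hv : ∀ i : ℕ, i < 5 → Bd (.var i) := fun i hi => hi
  have hF : ∀ s : LTerm, Bd s → Bd (F s (LTerm.var 2) (LTerm.var 3) (LTerm.var 4)) :=
    fun s hs => Bd_F hs (hv 2 (by norm_num)) (hv 3 (by norm_num)) (hv 4 (by norm_num))
  have key := H ((LTerm.var 0 * F (LTerm.var 0) (LTerm.var 2) (LTerm.var 3) (LTerm.var 4)) *
      F (LTerm.var 0 * F (LTerm.var 0) (LTerm.var 2) (LTerm.var 3) (LTerm.var 4))
        (LTerm.var 2) (LTerm.var 3) (LTerm.var 4))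
    (LTerm.var 0 * F (LTerm.var 0) (LTerm.var 2) (LTerm.var 3) (LTerm.var 4))
    (Bd_mul (Bd_mul (hv 0 (by norm_num)) (hF _ (hv 0 (by norm_num))))
      (hF _ (Bd_mul (hv 0 (by norm_num)) (hF _ (hv 0 (by norm_num))))))
    (Bd_mul (hv 0 (by norm_num)) (hF _ (hv 0 (by norm_num))))
    (by
      intro v
      simp only [ev_mul, ev_F, ev_var, ten_F]
      by_cases h : Ind (v 2) (v 3) (v 4)
      · simp only [if_pos h, ten_mul_self]
      · simp only [if_neg h, ten_mul_one])
    (asg p 1 x y z)
  simpa only [ev_mul, ev_F, ev_var, asg] using key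

theorem Sat5.F_A (H : Sat5 M) (x y z : M) : F (A x y z) x y z = A x y z := by
  have hv : ∀ i : ℕ, i < 5 → Bd (.var i) := fun i hi => hi
  have hA : Bd (A (LTerm.var 2) (LTerm.var 3) (LTerm.var 4)) :=
    Bd_A (hv 2 (by norm_num)) (hv 3 (by norm_num)) (hv 4 (by norm_num))
  have key := H (F (A (LTerm.var 2) (LTerm.var 3) (LTerm.var 4))
      (LTerm.var 2) (LTerm.var 3) (LTerm.var 4))
    (A (LTerm.var 2) (LTerm.var 3) (LTerm.var 4))
    (Bd_F hA (hv 2 (by norm_num)) (hv 3 (by norm_num)) (hv 4 (by norm_num))) hA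
    (by
      intro v
      simp only [ev_A, ev_F, ev_var, ten_F, ten_A]
      by_cases h : Ind (v 2) (v 3) (v 4)
      · simp only [if_pos h]
      · simp only [if_neg h])
    (asg 1 1 x y z)
  simpa only [ev_A, ev_F, ev_var, asg] using key

/-- `F b x y z = E b x y z b`. -/
theorem Sat5.F_E (H : Sat5 M) (b x y z : M) : E b x y z b = F b x y z := by
  have hv : ∀ i : ℕ, i < 5 → Bd (.var i) := fun i hi => hi
  have key := H (E (LTerm.var 0) (LTerm.var 2) (LTerm.var 3) (LTerm.var 4) (LTerm.var 0))
    (F (LTerm.var 0) (LTerm.var 2) (LTerm.var 3) (LTerm.var 4))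
    (Bd_E (hv 0 (by norm_num)) (hv 2 (by norm_num)) (hv 3 (by norm_num)) (hv 4 (by norm_num))
      (hv 0 (by norm_num)))
    (Bd_F (hv 0 (by norm_num)) (hv 2 (by norm_num)) (hv 3 (by norm_num)) (hv 4 (by norm_num)))
    (by
      intro v
      simp only [ev_E, ev_F, ev_var, ten_F, ten_E]
      by_cases h : Ind (v 2) (v 3) (v 4)
      · by_cases hb : v 0 = 1
        · simp only [if_pos h, hb, ite_self]
        · rw [if_pos ⟨hb, h⟩, if_pos h]
      · rw [if_neg h, if_neg (fun hh => h hh.2)])
    (asg b 1 x y z)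
  simpa only [ev_E, ev_F, ev_var, asg] using key

/-- The long law. -/
theorem Sat5.comp_one (H : Sat5 M) (m x y z v : M) :
    comp x y z ((es x y z).map (fun e => m * e)) v = 1 := by
  have hv : ∀ i : ℕ, i < 5 → Bd (.var i) := fun i hi => hi
  have key := H (comp (LTerm.var 2) (LTerm.var 3) (LTerm.var 4)
      ((es (LTerm.var 2) (LTerm.var 3) (LTerm.var 4)).map (fun e => LTerm.var 0 * e))
      (LTerm.var 1)) 1
    (Bd_comp (hv 2 (by norm_num)) (hv 3 (by norm_num)) (hv 4 (by norm_num)) (hv 1 (by norm_num)) _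
      (Bd_es (hv 0 (by norm_num)) (hv 2 (by norm_num)) (hv 3 (by norm_num)) (hv 4 (by norm_num))))
    Bd_one
    (by
      intro w
      rw [ev_comp, ev_es, ev_one]
      simp only [ev_var]
      apply ten_comp_one
      · simp [es]
      · intro h
        obtain ⟨e, he, h1⟩ := ten_es _ _ _ h (w 0)
        rw [List.mem_map]
        exact ⟨e, he, h1⟩)
    (asg m v x y z)
  rw [ev_comp, ev_es, ev_one] at key
  simpa only [ev_var, asg] using key

end transfer

theorem ev_subst {M : Type} [Mul M] [One M] (v : ℕ → M) (σ : ℕ → LTerm) :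
    ∀ s : LTerm, ev v (s.subst σ) = ev (fun i => ev v (σ i)) s
  | .var _ => rfl
  | .one => rfl
  | .mul s t => by
      rw [LTerm.subst, ev, ev, ev_subst v σ s, ev_subst v σ t]
  | .ldiv s t => by
      rw [LTerm.subst, ev, ev, ev_subst v σ s, ev_subst v σ t]
  | .rdiv s t => by
      rw [LTerm.subst, ev, ev, ev_subst v σ s, ev_subst v σ t]

theorem Bd_subst {σ : ℕ → LTerm} (hσ : ∀ i, Bd (σ i)) : ∀ s : LTerm, Bd (s.subst σ)
  | .var i => hσ i
  | .one => trivial
  | .mul s t => ⟨Bd_subst hσ s, Bd_subst hσ t⟩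
  | .ldiv s t => ⟨Bd_subst hσ s, Bd_subst hσ t⟩
  | .rdiv s t => ⟨Bd_subst hσ s, Bd_subst hσ t⟩

theorem TenLaw.subst {s t : LTerm} (h : TenLaw s t) (σ : ℕ → LTerm) :
    TenLaw (s.subst σ) (t.subst σ) := by
  intro v
  rw [ev_subst, ev_subst]
  exact h _

/-! ## Abelian case: elementary abelian 2-groups satisfy all laws of `L` -/

/-- number of occurrences of a variable -/
def cnt : LTerm → ℕ → ℕ
  | .var j => fun i => if i = j then 1 else 0
  | .one => fun _ => 0
  | .mul s t => fun i => cnt s i + cnt t i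
  | .ldiv s t => fun i => cnt s i + cnt t i
  | .rdiv s t => fun i => cnt s i + cnt t i

theorem ev_eq_prod {N : Type} [CommMonoid N] (v : ℕ → N) :
    ∀ (t : LTerm) (K : ℕ), (∀ i, cnt t i ≠ 0 → i < K) →
      ev v t = ∏ i ∈ Finset.range K, v i ^ cnt t i
  | .var j, K, h => by
      have hj : j < K := h j (by simp [cnt])
      rw [ev, Finset.prod_eq_single j]
      · simp [cnt]
      · intro i _ hij
        simp [cnt, hij]
      · intro hh
        exact absurd (Finset.mem_range.2 hj) hh
  | .one, K, _ => by simp [ev, cnt]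
  | .mul s t, K, h => by
      rw [ev, ev_eq_prod v s K (fun i hi => h i (by simp only [cnt]; omega)),
        ev_eq_prod v t K (fun i hi => h i (by simp only [cnt]; omega)),
        ← Finset.prod_mul_distrib]
      exact Finset.prod_congr rfl (fun i _ => by simp only [cnt, pow_add])
  | .ldiv s t, K, h => by
      rw [ev, ev_eq_prod v s K (fun i hi => h i (by simp only [cnt]; omega)),
        ev_eq_prod v t K (fun i hi => h i (by simp only [cnt]; omega)),
        ← Finset.prod_mul_distrib]
      exact Finset.prod_congr rfl (fun i _ => by simp only [cnt, pow_add])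
  | .rdiv s t, K, h => by
      rw [ev, ev_eq_prod v s K (fun i hi => h i (by simp only [cnt]; omega)),
        ev_eq_prod v t K (fun i hi => h i (by simp only [cnt]; omega)),
        ← Finset.prod_mul_distrib]
      exact Finset.prod_congr rfl (fun i _ => by simp only [cnt, pow_add])

theorem cnt_bound : ∀ t : LTerm, ∃ K, ∀ i, cnt t i ≠ 0 → i < K
  | .var j => ⟨j + 1, fun i hi => by
      simp only [cnt] at hi
      split_ifs at hi with h
      · omega
      · exact absurd rfl hi⟩
  | .one => ⟨0, fun i hi => absurd rfl hi⟩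
  | .mul s t => by
      obtain ⟨K, hK⟩ := cnt_bound s
      obtain ⟨L, hL⟩ := cnt_bound t
      refine ⟨max K L, fun i hi => ?_⟩
      by_cases h : cnt s i = 0
      · exact lt_max_of_lt_right (hL i (fun h' => hi (by simp only [cnt]; omega)))
      · exact lt_max_of_lt_left (hK i h)
  | .ldiv s t => by
      obtain ⟨K, hK⟩ := cnt_bound s
      obtain ⟨L, hL⟩ := cnt_bound t
      refine ⟨max K L, fun i hi => ?_⟩
      by_cases h : cnt s i = 0
      · exact lt_max_of_lt_right (hL i (fun h' => hi (by simp only [cnt]; omega)))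
      · exact lt_max_of_lt_left (hK i h)
  | .rdiv s t => by
      obtain ⟨K, hK⟩ := cnt_bound s
      obtain ⟨L, hL⟩ := cnt_bound t
      refine ⟨max K L, fun i hi => ?_⟩
      by_cases h : cnt s i = 0
      · exact lt_max_of_lt_right (hL i (fun h' => hi (by simp only [cnt]; omega)))
      · exact lt_max_of_lt_left (hK i h)

/-- an element of `L` different from the identity -/
def gTen : Ten := (1 : Fin 10)

theorem ten_parity (i : ℕ) : ∀ t : LTerm,
    ev (fun j => if j = i then gTen else (1 : Ten)) t = if cnt t i % 2 = 1 then gTen else 1 := by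
  have key : ∀ a b : ℕ, (if a % 2 = 1 then gTen else (1 : Ten)) *
      (if b % 2 = 1 then gTen else (1 : Ten)) = if (a + b) % 2 = 1 then gTen else 1 := by
    intro a b
    rcases Nat.mod_two_eq_zero_or_one a with ha | ha <;>
    rcases Nat.mod_two_eq_zero_or_one b with hb | hb
    · rw [if_neg (by omega), if_neg (by omega), if_neg (by omega), ten_one_mul]
    · rw [if_neg (by omega), if_pos (by omega), if_pos (by omega), ten_one_mul]
    · rw [if_pos (by omega), if_neg (by omega), if_pos (by omega), ten_mul_one]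
    · rw [if_pos (by omega), if_pos (by omega), if_neg (by omega), ten_mul_self]
  intro t
  induction t with
  | var j =>
      by_cases h : j = i
      · subst h
        have h1 : cnt (.var j) j = 1 := by simp [cnt]
        rw [h1]
        simp [ev]
      · have h1 : cnt (.var j) i = 0 := by
          simp only [cnt]
          rw [if_neg (fun h' : i = j => h h'.symm)]
        rw [h1]
        simp [ev, h]
  | one => simp [ev, cnt]
  | mul s t hs ht => rw [ev, hs, ht, key]; rfl
  | ldiv s t hs ht => rw [ev, hs, ht, key]; rfl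
  | rdiv s t hs ht => rw [ev, hs, ht, key]; rfl

theorem gTen_ne : gTen ≠ 1 := by decide +kernel

theorem TenLaw.parity {s t : LTerm} (h : TenLaw s t) (i : ℕ) : cnt s i % 2 = cnt t i % 2 := by
  have h1 := h (fun j => if j = i then gTen else 1)
  rw [ten_parity, ten_parity] at h1
  rcases Nat.mod_two_eq_zero_or_one (cnt s i) with ha | ha <;>
  rcases Nat.mod_two_eq_zero_or_one (cnt t i) with hb | hb
  · omega
  · rw [if_neg (by omega), if_pos (by omega)] at h1
    exact absurd h1.symm gTen_ne
  · rw [if_pos (by omega), if_neg (by omega)] at h1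
    exact absurd h1 gTen_ne
  · omega

theorem law_of_comm {N : Type} [CommMonoid N] (hN : ∀ x : N, x ^ 2 = 1) {s t : LTerm}
    (h : TenLaw s t) (v : ℕ → N) : ev v s = ev v t := by
  obtain ⟨K, hK⟩ := cnt_bound s
  obtain ⟨L, hL⟩ := cnt_bound t
  rw [ev_eq_prod v s (max K L) (fun i hi => lt_max_of_lt_left (hK i hi)),
    ev_eq_prod v t (max K L) (fun i hi => lt_max_of_lt_right (hL i hi))]
  refine Finset.prod_congr rfl (fun i _ => ?_)
  rw [pow_eq_pow_mod (cnt s i) (hN (v i)), pow_eq_pow_mod (cnt t i) (hN (v i)), h.parity i]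

/-! ## Algebras with a critical pair -/

section critical

variable {M : Type} [MulOneClass M]

theorem dich (H : Sat5 M) {p q : M} (hpq : p ≠ q)
    (hcrit : ∀ d : Con M, (∃ x y, x ≠ y ∧ d x y) → d p q) (x y z : M) :
    (∀ b, F b x y z = b) ∨ (∀ b, F b x y z = 1) := by
  let d1 : Con M :=
    { r := fun a b => F a x y z = F b x y z
      iseqv := ⟨fun _ => rfl, fun h => h.symm, fun h h' => h.trans h'⟩
      mul' := by
        intro a b c d hab hcd
        show F (a * c) x y z = F (b * d) x y z
        rw [H.F_mul, H.F_mul, show F a x y z = F b x y z from hab,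
          show F c x y z = F d x y z from hcd] }
  let d2 : Con M :=
    { r := fun a b => a * F a x y z = b * F b x y z
      iseqv := ⟨fun _ => rfl, fun h => h.symm, fun h h' => h.trans h'⟩
      mul' := by
        intro a b c d hab hcd
        show (a * c) * F (a * c) x y z = (b * d) * F (b * d) x y z
        rw [H.G_mul, H.G_mul, show a * F a x y z = b * F b x y z from hab,
          show c * F c x y z = d * F d x y z from hcd] }
  by_cases h1 : ∃ a b, a ≠ b ∧ F a x y z = F b x y z
  · by_cases h2 : ∃ a b, a ≠ b ∧ a * F a x y z = b * F b x y z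
    · have e1 : F p x y z = F q x y z := hcrit d1 h1
      have e2 : p * F p x y z = q * F q x y z := hcrit d2 h2
      rw [e1, H.comm p, H.comm q] at e2
      have e3 := congrArg (fun u => F q x y z * u) e2
      simp only [H.cancel] at e3
      exact absurd e3 hpq
    · right
      intro b
      push Not at h2
      by_contra hb
      have hne : b * F b x y z ≠ b := by
        intro hh
        apply hb
        have := congrArg (fun u => b * u) hh
        simp only [H.cancel, H.mul_self] at this
        exact this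
      exact h2 _ _ hne (H.G_G b x y z)
  · left
    intro b
    push Not at h1
    by_contra hb
    exact h1 _ _ hb (H.F_F b x y z)

theorem law_of_crit (H : Sat5 M) {p q : M} (hpq : p ≠ q)
    (hcrit : ∀ d : Con M, (∃ x y, x ≠ y ∧ d x y) → d p q) {s t : LTerm} (hst : TenLaw s t)
    (v : ℕ → M) : ev v s = ev v t := by
  by_cases hab : ∀ x y z : M, ∀ b, F b x y z = 1
  · -- associative case
    have hassoc : ∀ x y z : M, x * y * z = x * (y * z) := by
      intro x y z
      have h1 : A x y z = 1 := by rw [← H.F_A, hab]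
      unfold A at h1
      have h2 := congrArg (fun u => (x * y * z) * u) h1
      simp only [H.cancel, H.mul_one] at h2
      exact h2.symm
    let _ : CommMonoid M :=
      { (inferInstance : MulOneClass M) with
        mul_assoc := hassoc
        mul_comm := H.comm }
    exact law_of_comm (fun x => by rw [pow_two]; exact H.mul_self x) hst v
  · push Not at hab
    obtain ⟨x, y, z, b0, hb0⟩ := hab
    have hid : ∀ b, F b x y z = b := by
      rcases dich H hpq hcrit x y z with h | h
      · exact h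
      · exact absurd (h b0) hb0
    have hE : ∀ b : M, b ≠ 1 → ∀ w, E b x y z w = w := by
      intro b hb w
      rcases dich H hpq hcrit (P b (A y x z) (A x y z) (A x z y)) b
        (R b (A y x z) (A x y z) (A x z y)) with h | h
      · exact h w
      · exfalso
        apply hb
        have h1 : E b x y z b = 1 := h b
        rw [H.F_E, hid] at h1
        exact h1
    have hcomp : ∀ l : List M, (∀ b ∈ l, b ≠ 1) → ∀ w, comp x y z l w = w := by
      intro l
      induction l with
      | nil => intro _ w; rfl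
      | cons b l ih =>
          intro hl w
          rw [comp, ih (fun c hc => hl c (List.mem_cons_of_mem _ hc)),
            hE b (hl b List.mem_cons_self)]
    have hall : ∀ m : M, m ∈ es x y z := by
      intro m
      by_contra hm
      have h1 : ∀ w : M, w = 1 := by
        intro w
        rw [← hcomp ((es x y z).map (fun e => m * e)) ?_ w]
        · exact H.comp_one m x y z w
        · intro b hb hb1
          rw [List.mem_map] at hb
          obtain ⟨e, he, heb⟩ := hb
          apply hm
          have h2 : m * e = 1 := heb.trans hb1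
          have h3 := congrArg (fun u => m * u) h2
          simp only [H.cancel, H.mul_one] at h3
          rw [← h3]
          exact he
      exact hpq ((h1 p).trans (h1 q).symm)
    -- every element is the value of a three-variable term at `x, y, z`
    have hterm : ∀ m : M, ∃ r : LTerm, Bd r ∧ ev (asg x y z 1 1) r = m := by
      intro m
      have hm := hall m
      have hv : ∀ i : ℕ, i < 5 → Bd (.var i) := fun i hi => hi
      have b0 := hv 0 (by norm_num)
      have b1 := hv 1 (by norm_num)
      have b2 := hv 2 (by norm_num)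
      simp only [es, List.mem_cons, List.not_mem_nil, or_false] at hm
      rcases hm with h | h | h | h | h | h | h | h | h | h <;> subst h
      · exact ⟨1, Bd_one, rfl⟩
      · exact ⟨.var 0, b0, rfl⟩
      · exact ⟨.var 1, b1, rfl⟩
      · exact ⟨.var 2, b2, rfl⟩
      · exact ⟨.var 0 * .var 1, Bd_mul b0 b1, rfl⟩
      · exact ⟨.var 0 * .var 2, Bd_mul b0 b2, rfl⟩
      · exact ⟨.var 1 * .var 2, Bd_mul b1 b2, rfl⟩
      · exact ⟨(.var 0 * .var 1) * .var 2, Bd_mul (Bd_mul b0 b1) b2, rfl⟩
      · exact ⟨.var 0 * (.var 1 * .var 2), Bd_mul b0 (Bd_mul b1 b2), rfl⟩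
      · exact ⟨(.var 0 * .var 2) * .var 1, Bd_mul (Bd_mul b0 b2) b1, rfl⟩
    choose τ hτ1 hτ2 using hterm
    have e1 : v = fun i => ev (asg x y z 1 1) (τ (v i)) := by
      funext i
      exact (hτ2 (v i)).symm
    have e2 := H _ _ (Bd_subst (fun i => hτ1 (v i)) s) (Bd_subst (fun i => hτ1 (v i)) t)
      (hst.subst (fun i => τ (v i))) (asg x y z 1 1)
    rw [ev_subst, ev_subst] at e2
    rw [e1]
    exact e2

end critical

/-! ## Reduction to algebras with a critical pair -/

theorem exists_maximal_con {M : Type} [MulOneClass M] {p q : M} (hpq : p ≠ q) :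
    ∃ c : Con M, ¬ c p q ∧ ∀ d : Con M, c ≤ d → ¬ d p q → d ≤ c := by
  have hz := zorn_le₀ {c : Con M | ¬ c p q} (by
    intro C hC hchain
    rcases C.eq_empty_or_nonempty with hE | ⟨c0, hc0⟩
    · refine ⟨⊥, ?_, ?_⟩
      · show ¬ (⊥ : Con M) p q
        exact hpq
      · intro z hz
        rw [hE] at hz
        exact absurd hz (Set.notMem_empty z)
    · let u : Con M :=
        { r := fun x y => ∃ c ∈ C, c x y
          iseqv := by
            refine ⟨fun x => ⟨c0, hc0, c0.refl x⟩, ?_, ?_⟩
            · rintro x y ⟨c, hc, h⟩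
              exact ⟨c, hc, c.symm h⟩
            · rintro x y z ⟨c, hc, h⟩ ⟨d, hd, h'⟩
              rcases hchain.total hc hd with hcd | hcd
              · exact ⟨d, hd, d.trans (hcd h) h'⟩
              · exact ⟨c, hc, c.trans h (hcd h')⟩
          mul' := by
            rintro w x y z ⟨c, hc, h⟩ ⟨d, hd, h'⟩
            rcases hchain.total hc hd with hcd | hcd
            · exact ⟨d, hd, d.mul (hcd h) h'⟩
            · exact ⟨c, hc, c.mul h (hcd h')⟩ }
      refine ⟨u, ?_, ?_⟩
      · rintro ⟨c, hc, h⟩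
        exact hC hc h
      · intro z hz x y hxy
        exact ⟨z, hz, hxy⟩)
  obtain ⟨c, hc⟩ := hz
  refine ⟨c, hc.1, fun d hcd hd => hc.2 hd hcd⟩

theorem ev_hom {M N : Type} [MulOneClass M] [MulOneClass N] (f : M →* N) (v : ℕ → M) :
    ∀ t : LTerm, ev (fun i => f (v i)) t = f (ev v t)
  | .var _ => rfl
  | .one => (map_one f).symm
  | .mul s t => by
      rw [ev, ev, ev_hom f v s, ev_hom f v t, map_mul]
  | .ldiv s t => by
      rw [ev, ev, ev_hom f v s, ev_hom f v t, map_mul]
  | .rdiv s t => by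
      rw [ev, ev, ev_hom f v s, ev_hom f v t, map_mul]

/-- An algebra satisfying the five-variable laws of `L` satisfies all laws of `L`. -/
theorem law_of_sat5 {M : Type} [MulOneClass M] (H : Sat5 M) {s t : LTerm} (hst : TenLaw s t)
    (v : ℕ → M) : ev v s = ev v t := by
  by_contra hne
  obtain ⟨c, hc, hmax⟩ := exists_maximal_con hne
  have hsurj : Function.Surjective c.mk' := Con.mk'_surjective
  have HN : Sat5 c.Quotient := by
    intro s' t' hs' ht' hst' w
    choose w' hw' using fun i => hsurj (w i)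
    have e1 : w = fun i => c.mk' (w' i) := by
      funext i
      exact (hw' i).symm
    rw [e1, ev_hom, ev_hom, H s' t' hs' ht' hst' w']
  have hpq : c.mk' (ev v s) ≠ c.mk' (ev v t) := by
    intro h
    exact hc ((Con.eq c).1 h)
  have hcrit : ∀ d : Con c.Quotient, (∃ x y, x ≠ y ∧ d x y) →
      d (c.mk' (ev v s)) (c.mk' (ev v t)) := by
    rintro d ⟨x, y, hxy, hd⟩
    by_contra hcon
    obtain ⟨x', rfl⟩ := hsurj x
    obtain ⟨y', rfl⟩ := hsurj y
    have hle : c ≤ Con.comap c.mk' (map_mul c.mk') d := by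
      intro a b hab
      show d (c.mk' a) (c.mk' b)
      rw [show c.mk' a = c.mk' b from (Con.eq c).2 hab]
      exact d.refl _
    have h2 := hmax _ hle hcon
    apply hxy
    exact (Con.eq c).2 (h2 hd)
  have := law_of_crit HN hpq hcrit hst (fun i => c.mk' (v i))
  rw [ev_hom, ev_hom] at this
  exact hpq this

/-! ## The five-variable laws have a finite basis; completeness of equational logic -/

theorem tenLoop_eval (v : ℕ → Ten) : ∀ t : LTerm, (tenLoop.eval v t : Ten) = ev v t
  | .var _ => rfl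
  | .one => rfl
  | .mul s t => congrArg₂ (fun a b : Ten => a * b) (tenLoop_eval v s) (tenLoop_eval v t)
  | .ldiv s t => congrArg₂ (fun a b : Ten => a * b) (tenLoop_eval v s) (tenLoop_eval v t)
  | .rdiv s t => congrArg₂ (fun a b : Ten => a * b) (tenLoop_eval v s) (tenLoop_eval v t)

theorem law_iff (s t : LTerm) : tenLoop.Law s t ↔ TenLaw s t := by
  constructor
  · intro h v
    exact (tenLoop_eval v s).symm.trans ((h v).trans (tenLoop_eval v t))
  · intro h v
    exact (tenLoop_eval v s).trans ((h v).trans (tenLoop_eval v t).symm)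

/-- extension of a five-tuple to an assignment -/
def ext5 (w : Fin 5 → Fin 10) : ℕ → Fin 10 := fun i => if h : i < 5 then w ⟨i, h⟩ else 0

/-- five-variable term function -/
def fn (t : LTerm) : (Fin 5 → Fin 10) → Fin 10 := fun w => tenLoop.eval (ext5 w) t

theorem eval_congr_Bd {M : Type} (Q : LAlg M) (v w : ℕ → M) (h : ∀ i < 5, v i = w i) :
    ∀ t : LTerm, Bd t → Q.eval v t = Q.eval w t
  | .var i, ht => h i ht
  | .one, _ => rfl
  | .mul s t, ht => by
      rw [LAlg.eval, LAlg.eval, eval_congr_Bd Q v w h s ht.1, eval_congr_Bd Q v w h t ht.2]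
  | .ldiv s t, ht => by
      rw [LAlg.eval, LAlg.eval, eval_congr_Bd Q v w h s ht.1, eval_congr_Bd Q v w h t ht.2]
  | .rdiv s t, ht => by
      rw [LAlg.eval, LAlg.eval, eval_congr_Bd Q v w h s ht.1, eval_congr_Bd Q v w h t ht.2]

theorem law_of_fn {s t : LTerm} (hs : Bd s) (ht : Bd t) (h : fn s = fn t) :
    tenLoop.Law s t := by
  intro v
  have hv : ∀ i < 5, v i = ext5 (fun j => v j) i := by
    intro i hi
    simp [ext5, hi]
  rw [eval_congr_Bd _ v _ hv s hs, eval_congr_Bd _ v _ hv t ht]
  exact congrFun h _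

theorem fn_mul {s s' t t' : LTerm} (hs : fn s = fn s') (ht : fn t = fn t') :
    fn (.mul s t) = fn (.mul s' t') := by
  funext w
  have h1 := congrFun hs w
  have h2 := congrFun ht w
  simp only [fn, LAlg.eval] at *
  rw [h1, h2]

theorem fn_ldiv {s s' t t' : LTerm} (hs : fn s = fn s') (ht : fn t = fn t') :
    fn (.ldiv s t) = fn (.ldiv s' t') := by
  funext w
  have h1 := congrFun hs w
  have h2 := congrFun ht w
  simp only [fn, LAlg.eval] at *
  rw [h1, h2]

theorem fn_rdiv {s s' t t' : LTerm} (hs : fn s = fn s') (ht : fn t = fn t') :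
    fn (.rdiv s t) = fn (.rdiv s' t') := by
  funext w
  have h1 := congrFun hs w
  have h2 := congrFun ht w
  simp only [fn, LAlg.eval] at *
  rw [h1, h2]

open Classical in
/-- a chosen five-variable term representing a given function -/
noncomputable def rep (f : (Fin 5 → Fin 10) → Fin 10) : LTerm :=
  if h : ∃ t, Bd t ∧ fn t = f then h.choose else .one

theorem rep_Bd (f : (Fin 5 → Fin 10) → Fin 10) : Bd (rep f) := by
  unfold rep
  split_ifs with h
  · exact h.choose_spec.1
  · trivial

theorem fn_rep {t : LTerm} (ht : Bd t) : fn (rep (fn t)) = fn t := by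
  have h : ∃ t', Bd t' ∧ fn t' = fn t := ⟨t, ht, rfl⟩
  unfold rep
  rw [dif_pos h]
  exact h.choose_spec.2

/-- A finite set of five-variable terms. -/
def baseTerms : Set LTerm :=
  (Set.range (fun i : Fin 5 => LTerm.var i)) ∪ {LTerm.one} ∪
  (Set.range (fun g : ((Fin 5 → Fin 10) → Fin 10) × ((Fin 5 → Fin 10) → Fin 10) =>
    LTerm.mul (rep g.1) (rep g.2))) ∪
  (Set.range (fun g : ((Fin 5 → Fin 10) → Fin 10) × ((Fin 5 → Fin 10) → Fin 10) =>
    LTerm.ldiv (rep g.1) (rep g.2))) ∪
  (Set.range (fun g : ((Fin 5 → Fin 10) → Fin 10) × ((Fin 5 → Fin 10) → Fin 10) =>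
    LTerm.rdiv (rep g.1) (rep g.2)))

theorem baseTerms_finite : baseTerms.Finite := by
  unfold baseTerms
  refine Set.Finite.union (Set.Finite.union (Set.Finite.union (Set.Finite.union ?_ ?_) ?_) ?_) ?_
  · exact Set.finite_range _
  · exact Set.finite_singleton _
  · exact Set.finite_range _
  · exact Set.finite_range _
  · exact Set.finite_range _

theorem baseTerms_Bd : ∀ t ∈ baseTerms, Bd t := by
  intro t ht
  rcases ht with (((ht | ht) | ht) | ht) | ht
  · obtain ⟨i, rfl⟩ := ht
    exact i.2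
  · rw [Set.mem_singleton_iff] at ht
    subst ht
    trivial
  · obtain ⟨g, rfl⟩ := ht
    exact ⟨rep_Bd _, rep_Bd _⟩
  · obtain ⟨g, rfl⟩ := ht
    exact ⟨rep_Bd _, rep_Bd _⟩
  · obtain ⟨g, rfl⟩ := ht
    exact ⟨rep_Bd _, rep_Bd _⟩

/-- The finite basis. -/
def basis : Set (LTerm × LTerm) := (fun t => (t, rep (fn t))) '' baseTerms

theorem basis_finite : basis.Finite := baseTerms_finite.image _

theorem basis_law : ∀ e ∈ basis, tenLoop.Law e.1 e.2 := by
  rintro e ⟨t, ht, rfl⟩
  exact law_of_fn (baseTerms_Bd t ht) (rep_Bd _) (fn_rep (baseTerms_Bd t ht)).symm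

theorem law_rep {M : Type} (Q : LAlg M) (hQ : ∀ e ∈ basis, Q.Law e.1 e.2) :
    ∀ t : LTerm, Bd t → Q.Law t (rep (fn t))
  | .var i, ht => hQ (_, _) ⟨.var i, Or.inl (Or.inl (Or.inl (Or.inl ⟨⟨i, ht⟩, rfl⟩))), rfl⟩
  | .one, _ => hQ (_, _) ⟨.one, Or.inl (Or.inl (Or.inl (Or.inr rfl))), rfl⟩
  | .mul s t, ht => by
      intro v
      have h1 := law_rep Q hQ s ht.1 v
      have h2 := law_rep Q hQ t ht.2 v
      have h3 := hQ (_, _) ⟨.mul (rep (fn s)) (rep (fn t)),
        Or.inl (Or.inl (Or.inr ⟨(fn s, fn t), rfl⟩)), rfl⟩ v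
      rw [fn_mul (fn_rep ht.1) (fn_rep ht.2)] at h3
      rw [← h3, LAlg.eval, LAlg.eval, h1, h2]
  | .ldiv s t, ht => by
      intro v
      have h1 := law_rep Q hQ s ht.1 v
      have h2 := law_rep Q hQ t ht.2 v
      have h3 := hQ (_, _) ⟨.ldiv (rep (fn s)) (rep (fn t)),
        Or.inl (Or.inr ⟨(fn s, fn t), rfl⟩), rfl⟩ v
      rw [fn_ldiv (fn_rep ht.1) (fn_rep ht.2)] at h3
      rw [← h3, LAlg.eval, LAlg.eval, h1, h2]
  | .rdiv s t, ht => by
      intro v
      have h1 := law_rep Q hQ s ht.1 v
      have h2 := law_rep Q hQ t ht.2 v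
      have h3 := hQ (_, _) ⟨.rdiv (rep (fn s)) (rep (fn t)),
        Or.inr ⟨(fn s, fn t), rfl⟩, rfl⟩ v
      rw [fn_rdiv (fn_rep ht.1) (fn_rep ht.2)] at h3
      rw [← h3, LAlg.eval, LAlg.eval, h1, h2]

/-- An algebra satisfying the basis satisfies all five-variable laws of `L`. -/
theorem law_of_basis {M : Type} (Q : LAlg M) (hQ : ∀ e ∈ basis, Q.Law e.1 e.2) {s t : LTerm}
    (hs : Bd s) (ht : Bd t) (hst : tenLoop.Law s t) : Q.Law s t := by
  intro v
  have hf : fn s = fn t := by
    funext w
    exact hst _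
  rw [law_rep Q hQ s hs v, law_rep Q hQ t ht v, hf]

/-- An algebra satisfying the basis satisfies all laws of `L`. -/
theorem all_laws {M : Type} (Q : LAlg M) (hQ : ∀ e ∈ basis, Q.Law e.1 e.2) {s t : LTerm}
    (hst : tenLoop.Law s t) : Q.Law s t := by
  have L5 := fun (s t : LTerm) (hs : Bd s) (ht : Bd t) (h : TenLaw s t) =>
    law_of_basis Q hQ hs ht ((law_iff s t).2 h)
  have hv : ∀ i : ℕ, i < 5 → Bd (.var i) := fun i hi => hi
  have b0 := hv 0 (by norm_num)
  have b1 := hv 1 (by norm_num)
  have hl : ∀ x y : M, Q.ldiv x y = Q.mul x y := by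
    intro x y
    exact L5 (.ldiv (.var 0) (.var 1)) (.mul (.var 0) (.var 1)) ⟨b0, b1⟩ ⟨b0, b1⟩
      (fun v => rfl) (fun i => if i = 0 then x else y)
  have hr : ∀ x y : M, Q.rdiv x y = Q.mul x y := by
    intro x y
    exact L5 (.rdiv (.var 0) (.var 1)) (.mul (.var 0) (.var 1)) ⟨b0, b1⟩ ⟨b0, b1⟩
      (fun v => rfl) (fun i => if i = 0 then x else y)
  have h1 : ∀ x : M, Q.mul Q.one x = x := by
    intro x
    exact L5 (.mul .one (.var 0)) (.var 0) ⟨trivial, b0⟩ b0
      (fun v => ten_one_mul (v 0)) (fun _ => x)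
  have h2 : ∀ x : M, Q.mul x Q.one = x := by
    intro x
    exact L5 (.mul (.var 0) .one) (.var 0) ⟨b0, trivial⟩ b0
      (fun v => ten_mul_one (v 0)) (fun _ => x)
  let _ : MulOneClass M :=
    { mul := Q.mul
      one := Q.one
      one_mul := h1
      mul_one := h2 }
  have hev : ∀ (v : ℕ → M) (t : LTerm), Q.eval v t = ev v t := by
    intro v t
    induction t with
    | var i => rfl
    | one => rfl
    | mul s t hs ht => rw [LAlg.eval, ev, hs, ht]; rfl
    | ldiv s t hs ht => rw [LAlg.eval, ev, hs, ht, hl]; rfl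
    | rdiv s t hs ht => rw [LAlg.eval, ev, hs, ht, hr]; rfl
  have H : Sat5 M := by
    intro s' t' hs' ht' hst' v
    rw [← hev, ← hev]
    exact L5 s' t' hs' ht' hst' v
  intro v
  rw [hev, hev]
  exact law_of_sat5 H ((law_iff s t).1 hst) v

theorem subst_var : ∀ t : LTerm, t.subst LTerm.var = t
  | .var _ => rfl
  | .one => rfl
  | .mul s t => by rw [LTerm.subst, subst_var s, subst_var t]
  | .ldiv s t => by rw [LTerm.subst, subst_var s, subst_var t]
  | .rdiv s t => by rw [LTerm.subst, subst_var s, subst_var t]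

/-- Completeness: if every algebra satisfying `B` satisfies `s = t`, then `s = t` is derivable
from `B`. -/
theorem complete (B : Set (LTerm × LTerm)) (s t : LTerm)
    (h : ∀ (M : Type) (Q : LAlg M), (∀ e ∈ B, Q.Law e.1 e.2) → Q.Law s t) : Derives B s t := by
  let S : Setoid LTerm :=
    { r := Derives B
      iseqv := ⟨Derives.refl, fun {x y} h => Derives.symm x y h,
        fun {x y z} h h' => Derives.trans x y z h h'⟩ }
  let Q : LAlg (Quotient S) :=
    { mul := Quotient.map₂ LTerm.mul (fun _ _ h _ _ h' => Derives.mul _ _ _ _ h h')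
      ldiv := Quotient.map₂ LTerm.ldiv (fun _ _ h _ _ h' => Derives.ldiv _ _ _ _ h h')
      rdiv := Quotient.map₂ LTerm.rdiv (fun _ _ h _ _ h' => Derives.rdiv _ _ _ _ h h')
      one := Quotient.mk S LTerm.one }
  have hev : ∀ (σ : ℕ → LTerm) (u : LTerm),
      Q.eval (fun i => Quotient.mk S (σ i)) u = Quotient.mk S (u.subst σ) := by
    intro σ u
    induction u with
    | var i => rfl
    | one => rfl
    | mul a b ha hb => rw [LAlg.eval, ha, hb]; rfl
    | ldiv a b ha hb => rw [LAlg.eval, ha, hb]; rfl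
    | rdiv a b ha hb => rw [LAlg.eval, ha, hb]; rfl
  have hB : ∀ e ∈ B, Q.Law e.1 e.2 := by
    intro e he v
    choose σ hσ using fun i => Quotient.exists_rep (v i)
    have e1 : v = fun i => Quotient.mk S (σ i) := by
      funext i
      exact (hσ i).symm
    rw [e1, hev, hev]
    exact Quotient.sound (Derives.ax e.1 e.2 he σ)
  have h1 := h (Quotient S) Q hB (fun i => Quotient.mk S (LTerm.var i))
  rw [hev, hev, subst_var, subst_var] at h1
  exact Quotient.exact h1

/-- **The laws of the ten-element loop `L` have a finite basis.** The first component records that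
`tenLoop` (product given by the table of the problem) is a loop with the divisions used. -/
theorem result : tenLoop.IsLoop ∧ tenLoop.FinitelyBased :=
  ⟨tenLoop_isLoop, basis, basis_finite, basis_law, fun s t hst =>
    complete basis s t (fun _ Q hQ => all_laws Q hQ hst)⟩

end Pool.Agent.Results.MP_8f735f_al.FiniteBasis
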